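import Pool.Agent.Helper19.Qh.Stmts

set_option autoImplicit false

/-!
# Module CELLD : the half-open cell is a fundamental domain of the group of Heisenberg translations
-/

namespace Pool.Agent.Helper19.Qh

open MeasureTheory Topology
open scoped ComplexConjugate

variable {m : ℕ}

theorem celld_finrank (m : ℕ) : Module.finrank ℝ (E m) = 4 * m := by
  have h := (WithLp.linearEquiv 2 ℝ (Fin m → Q)).finrank_eq
  rw [Module.finrank_pi_fintype] at h
  have h4 : Module.finrank ℝ Q = 4 := Quaternion.finrank_eq_four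
  simp only [h4, Finset.sum_const, Finset.card_univ, Fintype.card_fin, smul_eq_mul] at h
  rw [mul_comm]
  exact h

/-- coordinates with respect to `β` -/
theorem celld_coord {β : Fin (4 * m) → E m} (hβ : LinearIndependent ℝ β) (z : E m) :
    ∃ y : Fin (4 * m) → ℝ, z = ∑ i, y i • β i := by
  have hinj : Function.Injective (Fintype.linearCombination ℝ β) :=
    linearIndependent_iff_injective_fintypeLinearCombination.1 hβ
  have hfd : FiniteDimensional ℝ (E m) := (WithLp.linearEquiv 2 ℝ (Fin m → Q)).symm.finiteDimensional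
  have hsur : Function.Surjective (Fintype.linearCombination ℝ β) := by
    have h1 : Module.finrank ℝ (Fin (4 * m) → ℝ) = Module.finrank ℝ (E m) := by
      rw [celld_finrank, Module.finrank_fintype_fun_eq_card, Fintype.card_fin]
    exact (LinearMap.injective_iff_surjective_of_finrank_eq_finrank h1).1 hinj
  obtain ⟨y, hy⟩ := hsur z
  exact ⟨y, by rw [← hy, Fintype.linearCombination_apply]⟩

/-- imaginary quaternions in coordinates with respect to `γ` -/
theorem celld_imag {γ : Fin 3 → Q} (hγ0 : ∀ j, (γ j).re = 0) (hγ : LinearIndependent ℝ γ) (q : Q)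
    (hq : q.re = 0) : ∃ t : Fin 3 → ℝ, q = ∑ j, t j • γ j := by
  obtain ⟨L, hL⟩ : ∃ L : (ℝ × (Fin 3 → ℝ)) →ₗ[ℝ] Q, ∀ s t, L (s, t) = s • (1 : Q) +
      ∑ j, t j • γ j := by
    refine ⟨LinearMap.coprod (LinearMap.toSpanSingleton ℝ Q 1) (Fintype.linearCombination ℝ γ), ?_⟩
    intro s t
    rw [LinearMap.coprod_apply, LinearMap.toSpanSingleton_apply, Fintype.linearCombination_apply]
  have hre : ∀ s t, (L (s, t)).re = s := by
    intro s t
    rw [hL, Quaternion.re_add, re_sum_im γ hγ0, Quaternion.re_smul, Quaternion.re_one]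
    simp
  have hinj : Function.Injective L := by
    rw [injective_iff_map_eq_zero]
    rintro ⟨s, t⟩ h
    have hs : s = 0 := by
      have := hre s t
      rw [h, Quaternion.re_zero] at this
      exact this.symm
    subst hs
    rw [hL, zero_smul, zero_add] at h
    have := Fintype.linearIndependent_iff.1 hγ t h
    exact Prod.ext rfl (funext this)
  have hsur : Function.Surjective L := by
    have h1 : Module.finrank ℝ (ℝ × (Fin 3 → ℝ)) = Module.finrank ℝ Q := by
      have h4 : Module.finrank ℝ Q = 4 := Quaternion.finrank_eq_four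
      rw [h4, Module.finrank_prod, Module.finrank_fintype_fun_eq_card, Fintype.card_fin,
        Module.finrank_self]
    exact (LinearMap.injective_iff_surjective_of_finrank_eq_finrank h1).1 hinj
  obtain ⟨⟨s, t⟩, hst⟩ := hsur q
  have hs : s = 0 := by
    rw [← hre s t, hst, hq]
  refine ⟨t, ?_⟩
  rw [← hst, hL, hs, zero_smul, zero_add]

theorem celld_int {x y : ℝ} {k : ℤ} (hx : x ∈ Set.Ico (0 : ℝ) 1) (hy : y ∈ Set.Ico (0 : ℝ) 1)
    (h : y = x + k) : k = 0 := by
  obtain ⟨a1, a2⟩ := hx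
  obtain ⟨a3, a4⟩ := hy
  rw [h] at a3 a4
  have f1 : (-1 : ℝ) < k := by linarith
  have f2 : (k : ℝ) < 1 := by linarith
  have f3 : (-1 : ℤ) < k := by exact_mod_cast f1
  have f4 : k < (1 : ℤ) := by exact_mod_cast f2
  omega

theorem celld_hin_zero (b : E m) : hin b (0 : E m) = 0 := by simp [hin]

theorem celld_fract {ι : Type} [Fintype ι] {W : Type} [AddCommGroup W] [Module ℝ W] (y : ι → ℝ)
    (β : ι → W) : ∑ i, y i • β i + ∑ i, ((-⌊y i⌋ : ℤ) : ℝ) • β i = ∑ i, Int.fract (y i) • β i := by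
  rw [← Finset.sum_add_distrib]
  refine Finset.sum_congr rfl fun i _ => ?_
  rw [← add_smul]
  congr 1
  push_cast
  unfold Int.fract
  ring

theorem st_CELLD : ST_CELLD := by
  intro m N β γ hN p hp
  -- existence
  obtain ⟨y, hy⟩ := celld_coord hN.li p.2
  obtain ⟨a, ha⟩ := (hN.lat (∑ i, ((-⌊y i⌋ : ℤ) : ℝ) • β i)).2 ⟨fun i => -⌊y i⌋, rfl⟩
  obtain ⟨b, hb⟩ : ∃ b : E m, b = ∑ i, ((-⌊y i⌋ : ℤ) : ℝ) • β i := ⟨_, rfl⟩
  rw [← hb] at ha
  obtain ⟨z, hz⟩ : ∃ z : Q, z = p.1 - hin p.2 b + a := ⟨_, rfl⟩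
  obtain ⟨t, ht⟩ := celld_imag hN.im hN.lic (z - ((z.re : ℝ) : Q))
    (by rw [Quaternion.re_sub, Quaternion.re_coe, sub_self])
  obtain ⟨l, hl0⟩ : ∃ l : Q, l = ∑ j, ((-⌊t j⌋ : ℤ) : ℝ) • γ j := ⟨_, rfl⟩
  have hl : N l 0 := (hN.cen _).2 ⟨fun j => -⌊t j⌋, hl0⟩
  have hlre : l.re = 0 := by rw [hl0]; exact re_sum_im γ hN.im _
  have hab : N (l + a) b := by
    have h := hN.mul _ _ _ _ hl ha
    rw [celld_hin_zero, sub_zero, zero_add] at h
    exact h
  have key : ∃ (x : (Fin (4 * m) → ℝ) × (Fin 3 → ℝ)) (u : ℝ), (∀ i, x.1 i ∈ Set.Ico (0 : ℝ) 1) ∧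
      (∀ j, x.2 j ∈ Set.Ico (0 : ℝ) 1) ∧ 0 < u ∧
      act (T (l + a) b) p = cellpt β γ x u := by
    refine ⟨(fun i => Int.fract (y i), fun j => Int.fract (t j)), hgt p,
      fun i => ⟨Int.fract_nonneg _, Int.fract_lt_one _⟩,
      fun j => ⟨Int.fract_nonneg _, Int.fract_lt_one _⟩, hp, ?_⟩
    have h2 : p.2 + b = ∑ i, Int.fract (y i) • β i := by
      rw [hy, hb]
      exact celld_fract y β
    have h1 := hgt_T (hN.norm _ _ hab) p
    have e1 : act (T (l + a) b) p = (z + l, p.2 + b) := by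
      rw [act_T, hz]
      refine Prod.ext ?_ rfl
      change p.1 - hin p.2 b + (l + a) = p.1 - hin p.2 b + a + l
      abel
    have hzre : z.re = -(hgt p + ‖p.2 + b‖ ^ 2) / 2 := by
      rw [e1] at h1
      have h3 : hgt ((z + l, p.2 + b) : Pt m) = -(2 * (z + l).re + ‖p.2 + b‖ ^ 2) := rfl
      rw [h3, Quaternion.re_add, hlre] at h1
      linarith
    rw [e1]
    unfold cellpt
    refine Prod.ext ?_ h2
    change z + l = ((-(hgt p + ‖∑ i, Int.fract (y i) • β i‖ ^ 2) / 2 : ℝ) : Q) +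
      ∑ j, Int.fract (t j) • γ j
    rw [← h2, ← hzre, ← celld_fract t γ, ← ht, ← hl0]
    abel
  refine ⟨(l + a, b), ⟨hab, key⟩, ?_⟩
  · -- uniqueness
    suffices hu : ∀ a b a' b', N a b → N a' b' →
        (∃ (x : (Fin (4 * m) → ℝ) × (Fin 3 → ℝ)) (u : ℝ), (∀ i, x.1 i ∈ Set.Ico (0 : ℝ) 1) ∧
          (∀ j, x.2 j ∈ Set.Ico (0 : ℝ) 1) ∧ 0 < u ∧ act (T a b) p = cellpt β γ x u) →
        (∃ (x : (Fin (4 * m) → ℝ) × (Fin 3 → ℝ)) (u : ℝ), (∀ i, x.1 i ∈ Set.Ico (0 : ℝ) 1) ∧
          (∀ j, x.2 j ∈ Set.Ico (0 : ℝ) 1) ∧ 0 < u ∧ act (T a' b') p = cellpt β γ x u) →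
        a' = a ∧ b' = b by
      rintro ⟨a', b'⟩ ⟨h1, h2⟩
      have h3 := hu _ _ a' b' hab h1 key h2
      exact Prod.ext h3.1 h3.2
    intro a b a' b' h h' hx hx'
    obtain ⟨x, u, hx1, hx2, hu, hx⟩ := hx
    obtain ⟨x', u', hx1', hx2', hu', hx'⟩ := hx'
    obtain ⟨k, hk⟩ := (hN.lat b).1 ⟨a, h⟩
    obtain ⟨k', hk'⟩ := (hN.lat b').1 ⟨a', h'⟩
    have e2 : p.2 + b = ∑ i, x.1 i • β i := by
      have := congrArg Prod.snd hx
      rw [act_T] at this
      exact this
    have e2' : p.2 + b' = ∑ i, x'.1 i • β i := by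
      have := congrArg Prod.snd hx'
      rw [act_T] at this
      exact this
    have e3 : ∑ i, (x'.1 i - x.1 i - ((k' i : ℝ) - k i)) • β i = 0 := by
      have : ∑ i, (x'.1 i - x.1 i - ((k' i : ℝ) - k i)) • β i
          = (∑ i, x'.1 i • β i - ∑ i, x.1 i • β i)
            - (∑ i, (k' i : ℝ) • β i - ∑ i, (k i : ℝ) • β i) := by
        simp only [sub_smul, Finset.sum_sub_distrib]
      rw [this, ← e2, ← e2', ← hk, ← hk']
      abel
    have e4 := Fintype.linearIndependent_iff.1 hN.li _ e3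
    have e5 : ∀ i, k' i - k i = 0 := by
      intro i
      refine celld_int (hx1 i) (hx1' i) ?_
      have := e4 i
      push_cast
      linarith
    have hbb : b' = b := by
      rw [hk, hk']
      refine Finset.sum_congr rfl fun i _ => ?_
      have : k' i = k i := by linarith [e5 i]
      rw [this]
    subst hbb
    have h4 := hN.mul _ _ _ _ h' (hN.inv _ _ h)
    rw [add_neg_cancel, hin_neg_left, sub_neg_eq_add] at h4
    have h5 : a' + star a + hin b' b' = a' - a := by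
      have h6 := add_star_of (hN.norm _ _ h)
      have h7 : a' + star a + hin b' b' = a' - a + (a + star a + hin b' b') := by abel
      rw [h7, h6, add_zero]
    rw [h5] at h4
    obtain ⟨l, hl⟩ := (hN.cen _).1 h4
    have g1 : p.1 - hin p.2 b' + a = ((-(u + ‖∑ i, x.1 i • β i‖ ^ 2) / 2 : ℝ) : Q) +
        ∑ j, x.2 j • γ j := by
      have := congrArg Prod.fst hx
      rw [act_T] at this
      exact this
    have g2 : p.1 - hin p.2 b' + a' = ((-(u' + ‖∑ i, x'.1 i • β i‖ ^ 2) / 2 : ℝ) : Q) +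
        ∑ j, x'.2 j • γ j := by
      have := congrArg Prod.fst hx'
      rw [act_T] at this
      exact this
    obtain ⟨r, hr⟩ : ∃ r : ℝ, r = -(u + ‖∑ i, x.1 i • β i‖ ^ 2) / 2 := ⟨_, rfl⟩
    obtain ⟨r', hr'⟩ : ∃ r' : ℝ, r' = -(u' + ‖∑ i, x'.1 i • β i‖ ^ 2) / 2 := ⟨_, rfl⟩
    rw [← hr] at g1
    rw [← hr'] at g2
    have g3 : a' - a = ((r' : Q) + ∑ j, x'.2 j • γ j) - ((r : Q) + ∑ j, x.2 j • γ j) := by
      rw [← g1, ← g2]; abel
    have g4 : r' = r := by
      have h8 := congrArg (fun q : Q => q.re) (hl.symm.trans g3)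
      simp only [Quaternion.re_sub, Quaternion.re_add, Quaternion.re_coe, re_sum_im γ hN.im] at h8
      linarith
    rw [g4] at g3
    have g5 : ∑ j, (x'.2 j - x.2 j - (l j : ℝ)) • γ j = 0 := by
      have h9 : ∑ j, (x'.2 j - x.2 j - (l j : ℝ)) • γ j
          = (∑ j, x'.2 j • γ j - ∑ j, x.2 j • γ j) - ∑ j, (l j : ℝ) • γ j := by
        simp only [sub_smul, Finset.sum_sub_distrib]
      rw [h9, ← hl, g3]
      abel
    have g6 := Fintype.linearIndependent_iff.1 hN.lic _ g5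
    have g7 : ∀ j, l j = 0 := by
      intro j
      refine celld_int (hx2 j) (hx2' j) ?_
      have := g6 j
      linarith
    refine ⟨?_, rfl⟩
    have : a' - a = 0 := by
      rw [hl]
      refine Finset.sum_eq_zero fun j _ => ?_
      rw [g7 j]; simp
    exact sub_eq_zero.1 this

end Pool.Agent.Helper19.Qh
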