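import Pool.Agent.Helper19.Qh.Stmts

/-!
# Module PARS: Parseval in a direction of the centre
-/

set_option autoImplicit false

namespace Pool.Agent.Helper19.Qh

open MeasureTheory Topology Set
open scoped ComplexConjugate

variable {m : ℕ}

/-- the character `exp (-2 π i n t)` -/
noncomputable def pars_ec (n : ℤ) (t : ℝ) : ℂ := Complex.exp (-(2 * Real.pi * n * t : ℝ) * Complex.I)

theorem pars_continuous_ec (n : ℤ) : Continuous (pars_ec n) := by
  unfold pars_ec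
  fun_prop

theorem pars_norm_ec (n : ℤ) (t : ℝ) : ‖pars_ec n t‖ = 1 := by
  unfold pars_ec
  rw [← Complex.ofReal_neg, Complex.norm_exp_ofReal_mul_I]

theorem pars_ec_add (n : ℤ) (s t : ℝ) : pars_ec n (s + t) = pars_ec n s * pars_ec n t := by
  unfold pars_ec
  rw [← Complex.exp_add]
  congr 1
  push_cast
  ring

theorem pars_ec_one (n : ℤ) : pars_ec n 1 = 1 := by
  unfold pars_ec
  rw [Complex.exp_eq_one_iff]
  exact ⟨-n, by push_cast; ring⟩

theorem pars_ec_periodic (n : ℤ) (t : ℝ) : pars_ec n (t + 1) = pars_ec n t := by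
  rw [pars_ec_add, pars_ec_one, mul_one]

/-- Parseval on the unit interval -/
theorem pars_parseval1 {G : ℝ → ℂ} (hG : Continuous G) :
    HasSum (fun n : ℤ => ‖∫ t in (0 : ℝ)..1, G t * pars_ec n t‖ ^ 2)
      (∫ t in (0 : ℝ)..1, ‖G t‖ ^ 2) := by
  have hab : (0 : ℝ) < 1 := one_pos
  obtain ⟨C, hC⟩ := (isCompact_Icc : IsCompact (Icc (0 : ℝ) 1)).exists_bound_of_continuousOn
    hG.continuousOn
  have hL2 : MemLp G 2 (volume.restrict (Ioc (0 : ℝ) 1)) := by
    apply MemLp.of_bound hG.aestronglyMeasurable C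
    rw [ae_restrict_iff' measurableSet_Ioc]
    exact Filter.Eventually.of_forall fun t ht => hC t ⟨ht.1.le, ht.2⟩
  have h1 := hasSum_sq_fourierCoeffOn hab hL2
  have e1 : ∀ n : ℤ, fourierCoeffOn hab G n = ∫ t in (0 : ℝ)..1, G t * pars_ec n t := by
    intro n
    rw [fourierCoeffOn_eq_integral]
    have h2 : (1 : ℝ) / (1 - 0) = 1 := by norm_num
    rw [h2, one_smul]
    apply intervalIntegral.integral_congr
    intro t _
    simp only
    rw [fourier_coe_apply, smul_eq_mul, mul_comm]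
    congr 1
    unfold pars_ec
    congr 1
    push_cast
    ring
  simp only [e1] at h1
  have h3 : ((1 : ℝ) - 0)⁻¹ • ∫ t in (0 : ℝ)..1, ‖G t‖ ^ 2 = ∫ t in (0 : ℝ)..1, ‖G t‖ ^ 2 := by
    norm_num
  rw [h3] at h1
  exact h1

/-! ### the cell -/

/-- insert the coordinate `s` at the place `j` -/
def pars_ins (j : Fin 3) (s : ℝ) (w : Fin 2 → ℝ) : Fin 3 → ℝ :=
  Fin.insertNth (α := fun _ => ℝ) j s w

theorem pars_sum_ins (γ : Fin 3 → Q) (j : Fin 3) (s : ℝ) (w : Fin 2 → ℝ) :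
    ∑ k, pars_ins j s w k • γ k = s • γ j + ∑ k, w k • γ (j.succAbove k) := by
  rw [Fin.sum_univ_succAbove _ j]
  unfold pars_ins
  simp only [Fin.insertNth_apply_same, Fin.insertNth_apply_succAbove]

theorem pars_continuous_ins (j : Fin 3) :
    Continuous (fun p : (Fin 2 → ℝ) × ℝ => pars_ins j p.2 p.1) := by
  apply continuous_pi
  intro k
  rcases eq_or_ne k j with rfl | hk
  · have : (fun p : (Fin 2 → ℝ) × ℝ => pars_ins k p.2 p.1 k) = fun p => p.2 := by
      funext p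
      unfold pars_ins
      rw [Fin.insertNth_apply_same]
    rw [this]
    exact continuous_snd
  · obtain ⟨l, rfl⟩ := Fin.exists_succAbove_eq hk
    have : (fun p : (Fin 2 → ℝ) × ℝ => pars_ins j p.2 p.1 (j.succAbove l)) = fun p => p.1 l := by
      funext p
      unfold pars_ins
      rw [Fin.insertNth_apply_succAbove]
    rw [this]
    exact (continuous_apply l).comp continuous_fst

theorem pars_continuous_cellpt (β : Fin (4 * m) → E m) (γ : Fin 3 → Q) (u : ℝ) :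
    Continuous (fun x : (Fin (4 * m) → ℝ) × (Fin 3 → ℝ) => cellpt β γ x u) := by
  have h1 : Continuous (fun x : (Fin (4 * m) → ℝ) × (Fin 3 → ℝ) => ∑ i, x.1 i • β i) := by
    fun_prop
  unfold cellpt
  apply Continuous.prodMk _ h1
  apply Continuous.add
  · apply Quaternion.continuous_coe.comp
    exact ((continuous_const.add (h1.norm.pow 2)).neg).div_const 2
  · fun_prop

theorem pars_cellpt_mem (β : Fin (4 * m) → E m) {γ : Fin 3 → Q} (hγ : ∀ j, (γ j).re = 0) {u : ℝ}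
    (hu : 0 < u) (x : (Fin (4 * m) → ℝ) × (Fin 3 → ℝ)) : cellpt β γ x u ∈ SD m := by
  change 0 < hgt (cellpt β γ x u)
  rw [hgt_cellpt β hγ]
  exact hu

theorem pars_cont {β : Fin (4 * m) → E m} {γ : Fin 3 → Q} (hγ : ∀ j, (γ j).re = 0) {u : ℝ}
    (hu : 0 < u) {φ : Pt m → ℂ} (hφ : ContinuousOn φ (SD m)) :
    Continuous (fun x : (Fin (4 * m) → ℝ) × (Fin 3 → ℝ) => φ (cellpt β γ x u)) :=
  hφ.comp_continuous (pars_continuous_cellpt β γ u) (pars_cellpt_mem β hγ hu)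

/-- the point with coordinates `y`, `w` and `s` at the place `j` -/
noncomputable def pars_cp (β : Fin (4 * m) → E m) (γ : Fin 3 → Q) (j : Fin 3) (u : ℝ)
    (z : (Fin (4 * m) → ℝ) × (Fin 2 → ℝ)) (s : ℝ) : Pt m :=
  cellpt β γ (z.1, pars_ins j s z.2) u

theorem pars_cp_mem (β : Fin (4 * m) → E m) {γ : Fin 3 → Q} (hγ : ∀ j, (γ j).re = 0) (j : Fin 3)
    {u : ℝ} (hu : 0 < u) (z : (Fin (4 * m) → ℝ) × (Fin 2 → ℝ)) (s : ℝ) :
    pars_cp β γ j u z s ∈ SD m := pars_cellpt_mem β hγ hu _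

theorem pars_cp_cont {β : Fin (4 * m) → E m} {γ : Fin 3 → Q} (hγ : ∀ j, (γ j).re = 0) (j : Fin 3)
    {u : ℝ} (hu : 0 < u) {φ : Pt m → ℂ} (hφ : ContinuousOn φ (SD m)) :
    Continuous (fun x : ((Fin (4 * m) → ℝ) × (Fin 2 → ℝ)) × ℝ => φ (pars_cp β γ j u x.1 x.2)) := by
  have h1 := pars_cont (β := β) hγ hu hφ
  have h2 : Continuous (fun x : ((Fin (4 * m) → ℝ) × (Fin 2 → ℝ)) × ℝ =>
      ((x.1.1, pars_ins j x.2 x.1.2) : (Fin (4 * m) → ℝ) × (Fin 3 → ℝ))) := by
    apply Continuous.prodMk (continuous_fst.comp continuous_fst)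
    exact (pars_continuous_ins j).comp
      (Continuous.prodMk (continuous_snd.comp continuous_fst) continuous_snd)
  exact h1.comp h2

/-- translation by `t • γ j` in the coordinates of the cell -/
theorem pars_shift (β : Fin (4 * m) → E m) (γ : Fin 3 → Q) (j : Fin 3) (u : ℝ)
    (z : (Fin (4 * m) → ℝ) × (Fin 2 → ℝ)) (s t : ℝ) :
    ((pars_cp β γ j u z s).1 + t • γ j, (pars_cp β γ j u z s).2)
      = pars_cp β γ j u z (s + t) := by
  unfold pars_cp cellpt
  refine Prod.ext ?_ rfl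
  simp only
  rw [pars_sum_ins, pars_sum_ins, add_smul]
  abel

theorem pars_per {N : Q → E m → Prop} {β : Fin (4 * m) → E m} {γ : Fin 3 → Q} (hN : Cusp N β γ)
    (j : Fin 3) {φ : Pt m → ℂ} (hφ : Per N φ) {u : ℝ} (hu : 0 < u)
    (z : (Fin (4 * m) → ℝ) × (Fin 2 → ℝ)) (s : ℝ) :
    φ (pars_cp β γ j u z (s + 1)) = φ (pars_cp β γ j u z s) := by
  have h1 : N (γ j) 0 := by
    refine (hN.cen _).2 ⟨Pi.single j 1, ?_⟩
    rw [Finset.sum_eq_single j]
    · rw [Pi.single_eq_same, Int.cast_one, one_smul]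
    · intro b _ hb
      rw [Pi.single_eq_of_ne hb, Int.cast_zero, zero_smul]
    · intro h
      exact absurd (Finset.mem_univ j) h
  have h2 := hφ _ _ h1 _ (pars_cp_mem β hN.im j hu z s)
  rw [act_T] at h2
  rw [← h2, ← pars_shift]
  congr 1
  refine Prod.ext ?_ ?_
  · have h3 : hin (pars_cp β γ j u z s).2 0 = 0 := by
      simp [hin]
    simp only
    rw [h3, one_smul, sub_zero]
  · simp

/-- the `n`-th Fourier coefficient -/
noncomputable def pars_md (n : ℤ) (G : ((Fin (4 * m) → ℝ) × (Fin 2 → ℝ)) × ℝ → ℂ)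
    (z : (Fin (4 * m) → ℝ) × (Fin 2 → ℝ)) : ℂ :=
  ∫ t in (0 : ℝ)..1, G (z, t) * pars_ec n t

theorem pars_continuous_md (n : ℤ) {G : ((Fin (4 * m) → ℝ) × (Fin 2 → ℝ)) × ℝ → ℂ}
    (hG : Continuous G) : Continuous (pars_md n G) := by
  unfold pars_md
  apply intervalIntegral.continuous_parametric_intervalIntegral_of_continuous'
  exact (hG.comp continuous_id).mul ((pars_continuous_ec n).comp continuous_snd)

/-- the modes in the coordinates of the cell -/
theorem pars_mode_eq {N : Q → E m → Prop} {β : Fin (4 * m) → E m} {γ : Fin 3 → Q}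
    (hN : Cusp N β γ) (j : Fin 3)
    {φ : Pt m → ℂ} (hφ : Per N φ) {u : ℝ} (hu : 0 < u) (n : ℤ)
    (z : (Fin (4 * m) → ℝ) × (Fin 2 → ℝ)) (s : ℝ) :
    mode (γ j) n φ (pars_cp β γ j u z s)
      = pars_ec n (-s) * pars_md n (fun x => φ (pars_cp β γ j u x.1 x.2)) z := by
  have h0 : mode (γ j) n φ (pars_cp β γ j u z s)
      = ∫ t in (0 : ℝ)..1, pars_ec n (-s) * ((fun r => φ (pars_cp β γ j u z r) * pars_ec n r)
        (t + s)) := by
    unfold mode
    apply intervalIntegral.integral_congr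
    intro t _
    simp only
    rw [pars_shift, add_comm s t]
    have : Complex.exp (-(2 * Real.pi * n * t : ℝ) * Complex.I)
        = pars_ec n (-s) * pars_ec n (t + s) := by
      rw [← pars_ec_add]
      unfold pars_ec
      congr 1
      push_cast
      ring
    rw [this]
    ring
  rw [h0, intervalIntegral.integral_const_mul]
  congr 1
  rw [intervalIntegral.integral_comp_add_right
    (fun r => φ (pars_cp β γ j u z r) * pars_ec n r) s]
  have h3 : Function.Periodic (fun r => φ (pars_cp β γ j u z r) * pars_ec n r) 1 := by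
    intro t
    simp only
    rw [pars_ec_periodic, pars_per hN j hφ hu]
  have h4 := h3.intervalIntegral_add_eq (0 + s) 0
  rw [zero_add] at h4 ⊢
  rw [add_comm 1 s, h4]
  unfold pars_md
  norm_num

theorem pars_norm_mode {N : Q → E m → Prop} {β : Fin (4 * m) → E m} {γ : Fin 3 → Q}
    (hN : Cusp N β γ) (j : Fin 3)
    {φ : Pt m → ℂ} (hφ : Per N φ) {u : ℝ} (hu : 0 < u) (n : ℤ)
    (z : (Fin (4 * m) → ℝ) × (Fin 2 → ℝ)) (s : ℝ) :
    ‖mode (γ j) n φ (pars_cp β γ j u z s)‖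
      = ‖pars_md n (fun x => φ (pars_cp β γ j u x.1 x.2)) z‖ := by
  rw [pars_mode_eq hN j hφ hu, norm_mul, pars_norm_ec, one_mul]

/-! ### Tonelli -/

theorem pars_Icc {a b : ℕ} : Icc (0 : (Fin a → ℝ) × (Fin b → ℝ)) 1
    = Icc (0 : Fin a → ℝ) 1 ×ˢ Icc (0 : Fin b → ℝ) 1 := by
  rw [Icc_prod_Icc]
  rfl

/-- Tonelli on the cell -/
theorem pars_fub {a b : ℕ} {F : (Fin a → ℝ) × (Fin b → ℝ) → ENNReal} (hF : Measurable F) :
    ∫⁻ x in Icc (0 : (Fin a → ℝ) × (Fin b → ℝ)) 1, F x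
      = ∫⁻ y in Icc (0 : Fin a → ℝ) 1, ∫⁻ w in Icc (0 : Fin b → ℝ) 1, F (y, w) := by
  rw [pars_Icc, Measure.volume_eq_prod, ← Measure.prod_restrict, lintegral_prod _ hF.aemeasurable]

theorem pars_ins_mem (j : Fin 3) (s : ℝ) (w : Fin 2 → ℝ) :
    pars_ins j s w ∈ Icc (0 : Fin 3 → ℝ) 1 ↔ s ∈ Icc (0 : ℝ) 1 ∧ w ∈ Icc (0 : Fin 2 → ℝ) 1 := by
  have e1 : pars_ins j s w j = s := Fin.insertNth_apply_same (α := fun _ => ℝ) j s w
  have e2 : ∀ k, pars_ins j s w (j.succAbove k) = w k := fun k =>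
    Fin.insertNth_apply_succAbove (α := fun _ => ℝ) j s w k
  constructor
  · rintro ⟨h1, h2⟩
    refine ⟨⟨?_, ?_⟩, ⟨fun k => ?_, fun k => ?_⟩⟩
    · have := h1 j
      rwa [e1] at this
    · have := h2 j
      rwa [e1] at this
    · have := h1 (j.succAbove k)
      rwa [e2] at this
    · have := h2 (j.succAbove k)
      rwa [e2] at this
  · rintro ⟨⟨h1, h2⟩, ⟨h3, h4⟩⟩
    refine ⟨fun k => ?_, fun k => ?_⟩
    · rcases eq_or_ne k j with rfl | hk
      · rw [e1]
        exact h1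
      · obtain ⟨l, rfl⟩ := Fin.exists_succAbove_eq hk
        rw [e2]
        exact h3 l
    · rcases eq_or_ne k j with rfl | hk
      · rw [e1]
        exact h2
      · obtain ⟨l, rfl⟩ := Fin.exists_succAbove_eq hk
        rw [e2]
        exact h4 l

/-- Tonelli in the three central variables -/
theorem pars_ton3 (j : Fin 3) {g : (Fin 3 → ℝ) → ENNReal} (hg : Measurable g) :
    ∫⁻ v in Icc (0 : Fin 3 → ℝ) 1, g v
      = ∫⁻ w in Icc (0 : Fin 2 → ℝ) 1, ∫⁻ t in Icc (0 : ℝ) 1, g (pars_ins j t w) := by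
  have hmp := (volume_preserving_piFinSuccAbove (fun _ : Fin 3 => ℝ) j).symm
  have h1 : ∫⁻ v in Icc (0 : Fin 3 → ℝ) 1, g v
      = ∫⁻ v, (Icc (0 : Fin 3 → ℝ) 1).indicator g v :=
    (lintegral_indicator measurableSet_Icc g).symm
  have h2 : ∫⁻ v, (Icc (0 : Fin 3 → ℝ) 1).indicator g v
      = ∫⁻ p : ℝ × (Fin 2 → ℝ), (Icc (0 : Fin 3 → ℝ) 1).indicator g (pars_ins j p.1 p.2) := by
    have := hmp.lintegral_comp (f := (Icc (0 : Fin 3 → ℝ) 1).indicator g)
      (hg.indicator measurableSet_Icc)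
    exact this.symm
  have h3 : ∀ p : ℝ × (Fin 2 → ℝ), (Icc (0 : Fin 3 → ℝ) 1).indicator g (pars_ins j p.1 p.2)
      = (Icc (0 : ℝ) 1 ×ˢ Icc (0 : Fin 2 → ℝ) 1).indicator
        (fun p : ℝ × (Fin 2 → ℝ) => g (pars_ins j p.1 p.2)) p := by
    intro p
    by_cases hp : pars_ins j p.1 p.2 ∈ Icc (0 : Fin 3 → ℝ) 1
    · rw [indicator_of_mem hp, indicator_of_mem]
      exact (pars_ins_mem j p.1 p.2).1 hp
    · rw [indicator_of_notMem hp, indicator_of_notMem]
      intro h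
      exact hp ((pars_ins_mem j p.1 p.2).2 h)
  have hm : Measurable (fun p : ℝ × (Fin 2 → ℝ) => g (pars_ins j p.1 p.2)) := by
    apply hg.comp
    exact ((pars_continuous_ins j).comp continuous_swap).measurable
  rw [h1, h2, lintegral_congr h3, lintegral_indicator (measurableSet_Icc.prod measurableSet_Icc),
    Measure.volume_eq_prod, ← Measure.prod_restrict, lintegral_prod_symm _ hm.aemeasurable]

theorem pars_tonelli (j : Fin 3) {F : (Fin (4 * m) → ℝ) × (Fin 3 → ℝ) → ENNReal}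
    (hF : Measurable F) :
    ∫⁻ x in Icc (0 : (Fin (4 * m) → ℝ) × (Fin 3 → ℝ)) 1, F x
      = ∫⁻ z in Icc (0 : (Fin (4 * m) → ℝ) × (Fin 2 → ℝ)) 1, ∫⁻ t in Icc (0 : ℝ) 1,
        F (z.1, pars_ins j t z.2) := by
  have hm : Measurable (fun x : ((Fin (4 * m) → ℝ) × (Fin 2 → ℝ)) × ℝ =>
      F (x.1.1, pars_ins j x.2 x.1.2)) := by
    apply hF.comp
    refine Measurable.prodMk (measurable_fst.comp measurable_fst) ?_
    exact (pars_continuous_ins j).measurable.comp
      (Measurable.prodMk (measurable_snd.comp measurable_fst) measurable_snd)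
  have hm2 : Measurable (fun z : (Fin (4 * m) → ℝ) × (Fin 2 → ℝ) => ∫⁻ t in Icc (0 : ℝ) 1,
      F (z.1, pars_ins j t z.2)) := hm.lintegral_prod_right'
  rw [pars_fub hF, pars_fub hm2]
  apply lintegral_congr
  intro y
  exact pars_ton3 j (g := fun v => F (y, v)) (hF.comp (measurable_const.prodMk measurable_id))

theorem pars_mode_cont {β : Fin (4 * m) → E m} {γ : Fin 3 → Q}
    (hγ : ∀ j, (γ j).re = 0) (j : Fin 3)
    {φ : Pt m → ℂ} (hc : ContinuousOn φ (SD m)) {u : ℝ} (hu : 0 < u) (n : ℤ) :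
    Continuous (fun x : (Fin (4 * m) → ℝ) × (Fin 3 → ℝ) => mode (γ j) n φ (cellpt β γ x u)) := by
  unfold mode
  apply intervalIntegral.continuous_parametric_intervalIntegral_of_continuous'
  apply Continuous.mul
  · have h1 : Continuous (fun x : ((Fin (4 * m) → ℝ) × (Fin 3 → ℝ)) × ℝ =>
        (((cellpt β γ x.1 u).1 + x.2 • γ j, (cellpt β γ x.1 u).2) : Pt m)) := by
      have h2 := (pars_continuous_cellpt β γ u).comp
        (continuous_fst : Continuous (Prod.fst : ((Fin (4 * m) → ℝ) × (Fin 3 → ℝ)) × ℝ → _))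
      exact ((continuous_fst.comp h2).add (continuous_snd.smul continuous_const)).prodMk
        (continuous_snd.comp h2)
    refine hc.comp_continuous h1 fun x => ?_
    have h3 : hgt (((cellpt β γ x.1 u).1 + x.2 • γ j, (cellpt β γ x.1 u).2) : Pt m)
        = hgt (cellpt β γ x.1 u) := by
      unfold hgt
      simp only [Quaternion.re_add, Quaternion.re_smul, hγ j, smul_eq_mul, mul_zero, add_zero]
    change 0 < hgt _
    rw [h3, hgt_cellpt β hγ]
    exact hu
  · exact (pars_continuous_ec n).comp continuous_snd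

theorem pars_cell_mode {N : Q → E m → Prop} {β : Fin (4 * m) → E m} {γ : Fin 3 → Q}
    (hN : Cusp N β γ) (j : Fin 3)
    {φ : Pt m → ℂ} (hφ : Per N φ) (hc : ContinuousOn φ (SD m)) {u : ℝ} (hu : 0 < u) (n : ℤ) :
    cellInt β γ (fun p => ENNReal.ofReal (‖mode (γ j) n φ p‖ ^ 2)) u
      = ∫⁻ z in Icc (0 : (Fin (4 * m) → ℝ) × (Fin 2 → ℝ)) 1,
        ENNReal.ofReal (‖pars_md n (fun x => φ (pars_cp β γ j u x.1 x.2)) z‖ ^ 2) := by
  have hm : Measurable (fun x : (Fin (4 * m) → ℝ) × (Fin 3 → ℝ) =>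
      ENNReal.ofReal (‖mode (γ j) n φ (cellpt β γ x u)‖ ^ 2)) :=
    ((pars_mode_cont hN.im j hc hu n).norm.pow 2).measurable.ennreal_ofReal
  have h1 := pars_tonelli j hm
  unfold cellInt
  rw [h1]
  apply lintegral_congr
  intro z
  have h2 : ∀ t : ℝ, ENNReal.ofReal (‖mode (γ j) n φ (cellpt β γ (z.1, pars_ins j t z.2) u)‖ ^ 2)
      = ENNReal.ofReal (‖pars_md n (fun x => φ (pars_cp β γ j u x.1 x.2)) z‖ ^ 2) := by
    intro t
    rw [← pars_norm_mode hN j hφ hu n z t]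
    rfl
  rw [lintegral_congr h2, lintegral_const, Measure.restrict_apply MeasurableSet.univ, univ_inter,
    Real.volume_Icc]
  simp

theorem pars_slice {G : ((Fin (4 * m) → ℝ) × (Fin 2 → ℝ)) × ℝ → ℂ} (hG : Continuous G)
    (z : (Fin (4 * m) → ℝ) × (Fin 2 → ℝ)) :
    ∫⁻ t in Icc (0 : ℝ) 1, ENNReal.ofReal (‖G (z, t)‖ ^ 2)
      = ∑' n : ℤ, ENNReal.ofReal (‖pars_md n G z‖ ^ 2) := by
  have h5 : Continuous (fun t : ℝ => ((z, t) : ((Fin (4 * m) → ℝ) × (Fin 2 → ℝ)) × ℝ)) :=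
    continuous_const.prodMk continuous_id
  have hGy : Continuous (fun t : ℝ => G (z, t)) := hG.comp h5
  have h2 := pars_parseval1 hGy
  have h3 : ∫⁻ t in Icc (0 : ℝ) 1, ENNReal.ofReal (‖G (z, t)‖ ^ 2) =
      ENNReal.ofReal (∫ t in (0 : ℝ)..1, ‖G (z, t)‖ ^ 2) := by
    rw [intervalIntegral.integral_of_le zero_le_one, ← integral_Icc_eq_integral_Ioc,
      ofReal_integral_eq_lintegral_ofReal]
    · exact (hGy.norm.pow 2).integrableOn_Icc
    · exact Filter.Eventually.of_forall fun t => by positivity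
  rw [h3, ← h2.tsum_eq, ENNReal.ofReal_tsum_of_nonneg (fun n => by positivity) h2.summable]
  rfl

theorem st_PARS : ST_PARS := by
  intro m N β γ hN φ hc hφ j u hu
  have hG : Continuous (fun x : ((Fin (4 * m) → ℝ) × (Fin 2 → ℝ)) × ℝ =>
      φ (pars_cp β γ j u x.1 x.2)) := pars_cp_cont hN.im j hu hc
  have h1 : cellInt β γ (fun p => ENNReal.ofReal (‖φ p‖ ^ 2)) u
      = ∫⁻ z in Icc (0 : (Fin (4 * m) → ℝ) × (Fin 2 → ℝ)) 1, ∫⁻ t in Icc (0 : ℝ) 1,
        ENNReal.ofReal (‖φ (pars_cp β γ j u z t)‖ ^ 2) :=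
    pars_tonelli j (F := fun x => ENNReal.ofReal (‖φ (cellpt β γ x u)‖ ^ 2))
      (((pars_cont hN.im hu hc).norm.pow 2).measurable.ennreal_ofReal)
  have h2 : ∀ z : (Fin (4 * m) → ℝ) × (Fin 2 → ℝ), ∫⁻ t in Icc (0 : ℝ) 1,
        ENNReal.ofReal (‖φ (pars_cp β γ j u z t)‖ ^ 2)
      = ∑' n : ℤ, ENNReal.ofReal (‖pars_md n (fun x => φ (pars_cp β γ j u x.1 x.2)) z‖ ^ 2) :=
    fun z => pars_slice hG z
  rw [h1, lintegral_congr h2, lintegral_tsum]
  · exact tsum_congr fun n => (pars_cell_mode hN j hφ hc hu n).symm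
  · intro n
    exact ((pars_continuous_md n hG).norm.pow 2).measurable.ennreal_ofReal.aemeasurable

end Pool.Agent.Helper19.Qh
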